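import Mathlib

set_option autoImplicit false

namespace Pool.Agent.Results.MP_bed60c_co.JoinCounterexample

/-- The join of two graphs on disjoint vertex sets. -/
def join {V W : Type} (G : SimpleGraph V) (J : SimpleGraph W) : SimpleGraph (V ⊕ W) where
  Adj x y :=
    match x, y with
    | .inl a, .inl b => G.Adj a b
    | .inr a, .inr b => J.Adj a b
    | _, _ => True
  symm := ⟨by
    rintro (a | a) (b | b) h
    · exact G.adj_symm h
    · trivial
    · trivial
    · exact J.adj_symm h⟩
  loopless := ⟨by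
    rintro (a | a) h
    · exact G.loopless.irrefl a h
    · exact J.loopless.irrefl a h⟩

/-- `S` is a small common neighbourhood set of `G`: it is nonempty and has at most `|S|` common
neighbours. -/
def IsSmallCommonNbhdSet {V : Type} (G : SimpleGraph V) (S : Finset V) : Prop :=
  S.Nonempty ∧ {x : V | ∀ v ∈ S, G.Adj v x}.ncard ≤ S.card

/-- `Υ(G)`: the least size of a small common neighbourhood set. -/
noncomputable def Upsilon {V : Type} (G : SimpleGraph V) : ℕ :=
  sInf {n | ∃ S : Finset V, IsSmallCommonNbhdSet G S ∧ S.card = n}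

open Classical in
/-- What cops at the vertices `c j` see of a robber at `x`: nothing when `x` is adjacent to the
vertex of every cop, and the vertex `x` otherwise. -/
noncomputable def obs {V : Type} (G : SimpleGraph V) {k : ℕ} (c : Fin k → V) (x : V) : Option V :=
  if ∀ j, G.Adj (c j) x then none else some x

/-- A strategy of `k` cops is a function `σ` from lists of observations to positions of the cops;
`σ []` is the initial position. For a trajectory `r` of the robber, `history G σ r i` is the list of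
all the observations made before the cops make their move number `i + 1`: the robber is observed
after each placement or move of either player. -/
noncomputable def history {V : Type} (G : SimpleGraph V) {k : ℕ}
    (σ : List (Option V) → Fin k → V) (r : ℕ → V) : ℕ → List (Option V)
  | 0 => [obs G (σ []) (r 0)]
  | i + 1 => history G σ r i ++
      [obs G (σ (history G σ r i)) (r i), obs G (σ (history G σ r i)) (r (i + 1))]

/-- the position of the cops after `i` moves, when they follow `σ` against the trajectory `r` -/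
noncomputable def cops {V : Type} (G : SimpleGraph V) {k : ℕ}
    (σ : List (Option V) → Fin k → V) (r : ℕ → V) : ℕ → Fin k → V
  | 0 => σ []
  | i + 1 => σ (history G σ r i)

/-- `k` cops have a winning strategy in Hyperopic Cops and Robber on `G`: there is a strategy `σ` such
that, against each trajectory `r` of the robber (`r i` is the vertex of the robber after `i` moves;
at each move it stays or goes to an adjacent vertex), each cop always stays or moves to an adjacent
vertex, and at some time (after a placement or move of one of the players) a cop is on the vertex of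
the robber. -/
def CopsWin {V : Type} (G : SimpleGraph V) (k : ℕ) : Prop :=
  ∃ σ : List (Option V) → Fin k → V, ∀ r : ℕ → V,
    (∀ i, r (i + 1) = r i ∨ G.Adj (r i) (r (i + 1))) →
      (∀ i j, cops G σ r (i + 1) j = cops G σ r i j ∨
        G.Adj (cops G σ r i j) (cops G σ r (i + 1) j)) ∧
      ∃ i j, cops G σ r i j = r i ∨ cops G σ r (i + 1) j = r i

/-- the hyperopic cop number -/
noncomputable def hyperopicCopNumber {V : Type} (G : SimpleGraph V) : ℕ :=
  sInf {k | CopsWin G k}

/-! ### The example -/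

/-- adjacency of the example graph: `2,…,6` form a clique, `0` is adjacent to `2, 3` and
`1` is adjacent to `4, 5`. -/
def adjB (x y : Fin 7) : Bool :=
  x ≠ y && ((2 ≤ x && 2 ≤ y) || (x = 0 && (y = 2 || y = 3)) || (y = 0 && (x = 2 || x = 3)) ||
    (x = 1 && (y = 4 || y = 5)) || (y = 1 && (x = 4 || x = 5)))

def Gex : SimpleGraph (Fin 7) where
  Adj x y := adjB x y = true
  symm := ⟨by decide⟩
  loopless := ⟨by decide⟩

instance : DecidableRel Gex.Adj := fun x y => inferInstanceAs (Decidable (adjB x y = true))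

def Jex : SimpleGraph (Fin 2) := ⊤

instance : DecidableRel Jex.Adj := inferInstanceAs (DecidableRel (⊤ : SimpleGraph (Fin 2)).Adj)

abbrev X := Fin 7 ⊕ Fin 2

/-- the join -/
def H : SimpleGraph X := join Gex Jex

instance : DecidableRel H.Adj := fun x y =>
  match x, y with
  | .inl a, .inl b => inferInstanceAs (Decidable (adjB a b = true))
  | .inr a, .inr b => inferInstanceAs (Decidable ((⊤ : SimpleGraph (Fin 2)).Adj a b))
  | .inl _, .inr _ => inferInstanceAs (Decidable True)
  | .inr _, .inl _ => inferInstanceAs (Decidable True)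

/-- the part of the graph used by the robber -/
def M (x : X) : Prop := x ≠ .inl 0 ∧ x ≠ .inl 1

instance : DecidablePred M := fun x => inferInstanceAs (Decidable (x ≠ .inl 0 ∧ x ≠ .inl 1))

/-- the exceptional pair of cop vertices -/
def UV (p q : X) : Prop := (p = .inl 0 ∧ q = .inl 1) ∨ (p = .inl 1 ∧ q = .inl 0)

instance (p q : X) : Decidable (UV p q) :=
  inferInstanceAs (Decidable ((p = .inl 0 ∧ q = .inl 1) ∨ (p = .inl 1 ∧ q = .inl 0)))

lemma card_next : ∀ p q w : X, M w → w ≠ p → w ≠ q → ¬ UV p q →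
    3 ≤ (Finset.univ.filter (fun x : X => M x ∧ (x = w ∨ H.Adj w x) ∧ H.Adj p x ∧ H.Adj q x)).card := by
  decide

lemma card_init : ∀ p q : X, ¬ UV p q →
    3 ≤ (Finset.univ.filter (fun x : X => M x ∧ H.Adj p x ∧ H.Adj q x)).card := by
  decide

lemma avoid (T : Finset X) (h : 3 ≤ T.card) (p q : X) : ∃ x ∈ T, x ≠ p ∧ x ≠ q := by
  have h1 : ({p, q} : Finset X).card ≤ 2 := Finset.card_le_two
  obtain ⟨x, hx, hx'⟩ := Finset.exists_mem_notMem_of_card_lt_card (lt_of_le_of_lt h1 h)
  refine ⟨x, hx, ?_⟩
  simpa using hx'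

lemma exists_next (p q w p' q' : X) (hw : M w) (hp : w ≠ p) (hq : w ≠ q) (h : ¬ UV p q) :
    ∃ x, M x ∧ (x = w ∨ H.Adj w x) ∧ H.Adj p x ∧ H.Adj q x ∧ x ≠ p' ∧ x ≠ q' := by
  obtain ⟨x, hx, h1, h2⟩ := avoid _ (card_next p q w hw hp hq h) p' q'
  simp only [Finset.mem_filter, Finset.mem_univ, true_and] at hx
  exact ⟨x, hx.1, hx.2.1, hx.2.2.1, hx.2.2.2, h1, h2⟩

lemma exists_init (p q p' q' : X) (h : ¬ UV p q) :
    ∃ x, M x ∧ H.Adj p x ∧ H.Adj q x ∧ x ≠ p' ∧ x ≠ q' := by
  obtain ⟨x, hx, h1, h2⟩ := avoid _ (card_init p q h) p' q'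
  simp only [Finset.mem_filter, Finset.mem_univ, true_and] at hx
  exact ⟨x, hx.1, hx.2.1, hx.2.2, h1, h2⟩

/-- at most two cops occupy at most two vertices -/
lemma cover (k : ℕ) (hk : k ≤ 2) (c : Fin k → X) : ∃ p q : X, ∀ j, c j = p ∨ c j = q := by
  interval_cases k
  · exact ⟨.inr 0, .inr 0, fun j => j.elim0⟩
  · exact ⟨c 0, c 0, fun j => by left; congr 1; exact Subsingleton.elim _ _⟩
  · refine ⟨c 0, c 1, fun j => ?_⟩
    fin_cases j
    · left; rfl
    · right; rfl

lemma cover_two {α ι : Type} (c : ι → α) (p q : α) (hc : ∀ j, c j = p ∨ c j = q) (j0 j1 : ι)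
    (hne : c j1 ≠ c j0) : ∀ j, c j = c j0 ∨ c j = c j1 := by
  intro j
  rcases hc j0 with a | a
  · rcases hc j1 with b | b
    · exact absurd (b.trans a.symm) hne
    · rcases hc j with d | d
      · left; rw [d, a]
      · right; rw [d, b]
  · rcases hc j1 with b | b
    · rcases hc j with d | d
      · right; rw [d, b]
      · left; rw [d, a]
    · exact absurd (b.trans a.symm) hne

/-- at most two cops which are not all on `0` and `1` -/
lemma cover' (k : ℕ) (hk : k ≤ 2) (c : Fin k → X) (huv : ¬ ∀ j, c j = .inl 0 ∨ c j = .inl 1) :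
    ∃ p q : X, (∀ j, c j = p ∨ c j = q) ∧ (∃ j, c j = p) ∧ (∃ j, c j = q) ∧ ¬ UV p q := by
  obtain ⟨p, q, hpq⟩ := cover k hk c
  push Not at huv
  obtain ⟨j0, hj0, hj1⟩ := huv
  by_cases hall : ∀ j, c j = c j0
  · refine ⟨c j0, c j0, fun j => Or.inl (hall j), ⟨j0, rfl⟩, ⟨j0, rfl⟩, ?_⟩
    rintro (⟨e1, _⟩ | ⟨e1, _⟩)
    · exact hj0 e1
    · exact hj1 e1
  · push Not at hall
    obtain ⟨j1, hne⟩ := hall
    refine ⟨c j0, c j1, cover_two c p q hpq j0 j1 hne, ⟨j0, rfl⟩, ⟨j1, rfl⟩, ?_⟩
    rintro (⟨e1, _⟩ | ⟨e1, _⟩)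
    · exact hj0 e1
    · exact hj1 e1

lemma not_six {x y : X} (hy : y = .inl 0 ∨ y = .inl 1) (h : x = y ∨ H.Adj y x) : x ≠ .inl 6 := by
  rintro rfl
  rcases hy with rfl | rfl
  · revert h; decide
  · revert h; decide

lemma ne_six {y : X} (hy : y = .inl 0 ∨ y = .inl 1) : y ≠ .inl 6 := by
  rcases hy with rfl | rfl <;> decide

lemma M_six : M (.inl 6) := by decide

lemma adj_six : ∀ w : X, M w → ((Sum.inl 6 : X) = w ∨ H.Adj w (.inl 6)) := by decide

lemma history_congr {k : ℕ} (σ : List (Option X) → Fin k → X) (r r' : ℕ → X) (n : ℕ)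
    (h : ∀ m ≤ n, r m = r' m) : history H σ r n = history H σ r' n := by
  induction n with
  | zero => simp [history, h 0 le_rfl]
  | succ n ih =>
    have h1 := ih (fun m hm => h m (by omega))
    simp only [history, h1, h n (by omega), h (n + 1) le_rfl]

def Valid (r : ℕ → X) : Prop := ∀ i, r (i + 1) = r i ∨ H.Adj (r i) (r (i + 1))

lemma obs_none {k : ℕ} (c : Fin k → X) (p q x : X) (hc : ∀ j, c j = p ∨ c j = q)
    (hp : H.Adj p x) (hq : H.Adj q x) : obs H c x = none := by
  rw [obs, if_pos]
  intro j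
  rcases hc j with h | h <;> rw [h] <;> assumption

theorem not_copsWin (k : ℕ) (hk : k ≤ 2) : ¬ CopsWin H k := by
  rintro ⟨σ, hσ⟩
  -- states of the robber's evasion
  let P : List (Option X) × X → Prop := fun s =>
    (∃ r n, Valid r ∧ history H σ r n = s.1 ∧ r n = s.2) ∧ M s.2 ∧ ∀ j, σ s.1 j ≠ s.2
  -- a realised history extends
  have extend : ∀ (h : List (Option X)) (w w' : X),
      (∃ r n, Valid r ∧ history H σ r n = h ∧ r n = w) → (w' = w ∨ H.Adj w w') →
      ∃ r n, Valid r ∧ history H σ r n = h ++ [obs H (σ h) w, obs H (σ h) w'] ∧ r n = w' ∧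
        ∀ j, σ (h ++ [obs H (σ h) w, obs H (σ h) w']) j = σ h j ∨
          H.Adj (σ h j) (σ (h ++ [obs H (σ h) w, obs H (σ h) w']) j) := by
    rintro h w w' ⟨r, n, hv, hh, hw⟩ hww
    let r' : ℕ → X := fun m => if m ≤ n then r m else w'
    have hv' : Valid r' := by
      intro i
      simp only [r']
      by_cases h1 : i + 1 ≤ n
      · rw [if_pos h1, if_pos (by omega)]
        exact hv i
      · by_cases h2 : i ≤ n
        · have : i = n := by omega
          subst this
          rw [if_neg h1, if_pos h2, hw]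
          exact hww
        · rw [if_neg h1, if_neg h2]
          left; rfl
    have e1 : history H σ r' n = h := by
      rw [← hh]
      apply history_congr
      intro m hm
      simp only [r', if_pos hm]
    have e2 : r' n = w := by simp only [r', if_pos le_rfl, hw]
    have e3 : r' (n + 1) = w' := by
      simp only [r']
      rw [if_neg (by omega)]
    have e4 : history H σ r' (n + 1) = h ++ [obs H (σ h) w, obs H (σ h) w'] := by
      simp only [history, e1, e2, e3]
    refine ⟨r', n + 1, hv', e4, e3, ?_⟩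
    intro j
    have := (hσ r' hv').1 (n + 1) j
    simp only [cops, e4, e1] at this
    exact this
  -- one step of the evasion
  have step : ∀ s : {s // P s}, ∃ s' : {s // P s},
      (s'.1.2 = s.1.2 ∨ H.Adj s.1.2 s'.1.2) ∧
      s'.1.1 = s.1.1 ++ [obs H (σ s.1.1) s.1.2, obs H (σ s.1.1) s'.1.2] ∧
      ∀ j, σ s.1.1 j ≠ s'.1.2 := by
    rintro ⟨⟨h, w⟩, hreal, hM, hav⟩
    simp only at hreal hM hav ⊢
    by_cases huv : ∀ j, σ h j = .inl 0 ∨ σ h j = .inl 1
    · -- the cops are on `0` and `1`: go to `6`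
      have hadj : (Sum.inl 6 : X) = w ∨ H.Adj w (.inl 6) := adj_six w hM
      obtain ⟨r, n, hv, hh, hr, hleg⟩ := extend h w (.inl 6) hreal hadj
      exact ⟨⟨(h ++ [obs H (σ h) w, obs H (σ h) (.inl 6)], .inl 6), ⟨r, n, hv, hh, hr⟩,
        M_six, fun j => not_six (huv j) (hleg j)⟩, hadj, rfl, fun j => ne_six (huv j)⟩
    · -- the robber moves to one of at least three common neighbours of the cops
      obtain ⟨p, q, hpq, ⟨j1, hj1⟩, ⟨j2, hj2⟩, hnuv⟩ := cover' k hk (σ h) huv
      obtain ⟨p', q', hpq'⟩ := cover k hk (σ (h ++ [obs H (σ h) w, none]))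
      obtain ⟨x, hx1, hx2, hx3, hx4, hx5, hx6⟩ := exists_next p q w p' q' hM
        (fun e => hav j1 (hj1.trans e.symm)) (fun e => hav j2 (hj2.trans e.symm)) hnuv
      have hobs : obs H (σ h) x = none := obs_none _ p q x hpq hx3 hx4
      obtain ⟨r, n, hv, hh, hr, -⟩ := extend h w x hreal hx2
      refine ⟨⟨(h ++ [obs H (σ h) w, obs H (σ h) x], x), ⟨r, n, hv, hh, hr⟩, hx1, ?_⟩,
        hx2, rfl, ?_⟩
      · intro j
        simp only [hobs]
        intro e
        rcases hpq' j with h1 | h1
        · exact hx5 (e.symm.trans h1)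
        · exact hx6 (e.symm.trans h1)
      · intro j e
        simp only at e
        rcases hpq j with h1 | h1
        · rw [h1] at e; rw [e] at hx3; exact H.loopless.irrefl _ hx3
        · rw [h1] at e; rw [e] at hx4; exact H.loopless.irrefl _ hx4
  -- the start
  have start : ∃ s : {s // P s}, s.1.1 = [obs H (σ []) s.1.2] ∧ ∀ j, σ [] j ≠ s.1.2 := by
    have real0 : ∀ x : X, ∃ r n, Valid r ∧ history H σ r n = [obs H (σ []) x] ∧ r n = x ∧
        ∀ j, σ [obs H (σ []) x] j = σ [] j ∨ H.Adj (σ [] j) (σ [obs H (σ []) x] j) := by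
      intro x
      have hv : Valid (fun _ => x) := fun _ => Or.inl rfl
      refine ⟨fun _ => x, 0, hv, rfl, rfl, ?_⟩
      intro j
      exact (hσ (fun _ => x) hv).1 0 j
    by_cases huv : ∀ j, σ [] j = .inl 0 ∨ σ [] j = .inl 1
    · obtain ⟨r, n, hv, hh, hr, hleg⟩ := real0 (.inl 6)
      exact ⟨⟨([obs H (σ []) (.inl 6)], .inl 6), ⟨r, n, hv, hh, hr⟩, M_six,
        fun j => not_six (huv j) (hleg j)⟩, rfl, fun j => ne_six (huv j)⟩
    · obtain ⟨p, q, hpq, -, -, hnuv⟩ := cover' k hk (σ []) huv
      obtain ⟨p', q', hpq'⟩ := cover k hk (σ [none])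
      obtain ⟨x, hx1, hx3, hx4, hx5, hx6⟩ := exists_init p q p' q' hnuv
      have hobs : obs H (σ []) x = none := obs_none _ p q x hpq hx3 hx4
      obtain ⟨r, n, hv, hh, hr, -⟩ := real0 x
      refine ⟨⟨([obs H (σ []) x], x), ⟨r, n, hv, hh, hr⟩, hx1, ?_⟩, rfl, ?_⟩
      · intro j
        simp only [hobs]
        intro e
        rcases hpq' j with h1 | h1
        · exact hx5 (e.symm.trans h1)
        · exact hx6 (e.symm.trans h1)
      · intro j e
        simp only at e
        rcases hpq j with h1 | h1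
        · rw [h1] at e; rw [e] at hx3; exact H.loopless.irrefl _ hx3
        · rw [h1] at e; rw [e] at hx4; exact H.loopless.irrefl _ hx4
  obtain ⟨s0, hs0, hs0'⟩ := start
  choose f hf1 hf2 hf3 using step
  let seq : ℕ → {s // P s} := fun n => Nat.rec s0 (fun _ s => f s) n
  have hseq : ∀ n, seq (n + 1) = f (seq n) := fun n => rfl
  let r : ℕ → X := fun n => (seq n).1.2
  have hist : ∀ n, history H σ r n = (seq n).1.1 := by
    intro n
    induction n with
    | zero => exact hs0.symm
    | succ n ih =>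
      simp only [history, ih]
      rw [hseq, hf2 (seq n)]
  have hv : Valid r := by
    intro i
    exact hf1 (seq i)
  obtain ⟨-, i, j, hij⟩ := hσ r hv
  rcases hij with h | h
  · cases i with
    | zero => exact hs0' j h
    | succ i =>
      simp only [cops, hist] at h
      exact hf3 (seq i) j h
  · simp only [cops, hist] at h
    exact (seq i).2.2.2 j h

lemma copsWin_nine : CopsWin H 9 := by
  have hcard : Fintype.card X = 9 := by decide
  let e : Fin 9 ≃ X := (Fintype.equivFinOfCardEq hcard).symm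
  refine ⟨fun _ => e, fun r _ => ⟨?_, ?_⟩⟩
  · intro i j
    left
    cases i <;> rfl
  · refine ⟨0, e.symm (r 0), Or.inl ?_⟩
    simp [cops]

lemma three_le : 3 ≤ hyperopicCopNumber H := by
  have hne : {k | CopsWin H k}.Nonempty := ⟨9, copsWin_nine⟩
  have hmem := Nat.sInf_mem hne
  by_contra hlt
  exact not_copsWin _ (by change hyperopicCopNumber H ≤ 2; omega) hmem

lemma upsilon_le : Upsilon H ≤ 2 := by
  apply Nat.sInf_le
  refine ⟨{.inl 0, .inl 1}, ⟨⟨.inl 0, by decide⟩, ?_⟩, by decide⟩
  have h : {x : X | ∀ v ∈ ({.inl 0, .inl 1} : Finset X), H.Adj v x} =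
      ((Finset.univ.filter (fun x : X => ∀ v ∈ ({.inl 0, .inl 1} : Finset X), H.Adj v x) :
        Finset X) : Set X) := by
    ext x; simp
  rw [h, Set.ncard_coe_finset]
  decide

lemma conn_G : Gex.Connected := by
  rw [SimpleGraph.connected_iff_exists_forall_reachable]
  refine ⟨2, fun w => ?_⟩
  have h : ∀ w : Fin 7, w = 2 ∨ Gex.Adj 2 w ∨ (Gex.Adj 2 4 ∧ Gex.Adj 4 w) := by decide
  rcases h w with h | h | ⟨h, h'⟩
  · rw [h]
  · exact h.reachable
  · exact h.reachable.trans h'.reachable

/-- There are connected graphs `G` and `J` with `Υ(G ∨ J) < c_H(G ∨ J)`. -/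
theorem result : ∃ (V W : Type) (_ : Fintype V) (_ : Fintype W) (G : SimpleGraph V)
    (J : SimpleGraph W), G.Connected ∧ J.Connected ∧
      Upsilon (join G J) + 1 ≤ hyperopicCopNumber (join G J) := by
  refine ⟨Fin 7, Fin 2, inferInstance, inferInstance, Gex, Jex, conn_G, ?_, ?_⟩
  · exact SimpleGraph.connected_top
  · have h1 := upsilon_le
    have h2 := three_le
    exact le_trans (Nat.succ_le_succ h1) h2

end Pool.Agent.Results.MP_bed60c_co.JoinCounterexample
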